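import Pool.Agent.Work.MP_c41774_al.Wall.CT
import Pool.Agent.Work.MP_c41774_al.Bd.B01

/-!
# Embeddings, wall crossings and charts: definitions
-/

noncomputable section

namespace Pool.Agent.Work.MP_c41774_al.Wall

open Finset QTorus LaurentPolynomial

/-! ### From `ℤ[v^{±1}]` to `ℤ((v))` -/

/-- the inclusion `ℤ[v^{±1}] → ℤ((v))` -/
def iota : R →+* S :=
  ((AddMonoidAlgebra.lift ℤ S ℤ)
    { toFun := fun n => w (Multiplicative.toAdd n)
      map_one' := w_zero
      map_mul' := fun _ _ => w_add _ _ } : LaurentPolynomial ℤ →ₐ[ℤ] S).toRingHom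

theorem iota_T (n : ℤ) : iota (T n) = w n := by
  show (AddMonoidAlgebra.lift ℤ S ℤ _) (AddMonoidAlgebra.single n 1) = w n
  rw [AddMonoidAlgebra.lift_single]
  rw [Algebra.smul_def, map_one, one_mul]
  rfl

theorem iota_C_mul_T (n z : ℤ) : iota (C z * T n) = HahnSeries.single n z := by
  rw [map_mul, iota_T]
  have : (C z : R) = (z : R) := by simp
  rw [this, map_intCast, w]
  ext k
  rw [← zsmul_eq_mul, HahnSeries.coeff_smul]
  by_cases h : k = n
  · subst h; simp
  · rw [HahnSeries.coeff_single_of_ne h, HahnSeries.coeff_single_of_ne h]; simp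

theorem iota_coeff (f : R) (n : ℤ) : (iota f).coeff n = f.coeff n := by
  induction f using LaurentPolynomial.induction_on' with
  | add p q hp hq =>
    rw [map_add, HahnSeries.coeff_add, hp, hq]; simp
  | C_mul_T m z =>
    rw [iota_C_mul_T]
    have : (C z * T m : R).coeff n = if m = n then z else 0 := by
      rw [← LaurentPolynomial.single_eq_C_mul_T]
      exact Finsupp.single_apply
    rw [this]
    by_cases h : m = n
    · subst h; simp
    · rw [HahnSeries.coeff_single_of_ne (Ne.symm h), if_neg h]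

theorem iota_injective : Function.Injective iota := by
  intro f g h
  refine LaurentPolynomial.ext fun n => ?_
  rw [← iota_coeff, ← iota_coeff, h]

theorem SN_iota {f : R} : SN (iota f) ↔ NN f := by
  constructor
  · intro h n; rw [← iota_coeff]; exact h n
  · intro h n; rw [iota_coeff]; exact h n

theorem SN_zero : SN 0 := fun n => by simp

theorem SN_w (n : ℤ) : SN (w n) := by rw [← iota_T, SN_iota]; exact NN_T n

theorem SN_one : SN 1 := by rw [← w_zero]; exact SN_w 0

theorem SN.add {f g : S} (hf : SN f) (hg : SN g) : SN (f + g) := fun n => by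
  rw [HahnSeries.coeff_add]; exact add_nonneg (hf n) (hg n)

theorem SN.sum {ι : Type*} {s : Finset ι} {f : ι → S} (h : ∀ i ∈ s, SN (f i)) :
    SN (∑ i ∈ s, f i) := by
  classical
  induction s using Finset.induction_on with
  | empty => simpa using SN_zero
  | insert a s ha ih =>
    rw [Finset.sum_insert ha]
    exact (h a (by simp)).add (ih fun i hi => h i (by simp [hi]))

theorem SN.mul {f g : S} (hf : SN f) (hg : SN g) : SN (f * g) := fun n => by
  rw [HahnSeries.coeff_mul]
  exact Finset.sum_nonneg fun i _ => mul_nonneg (hf _) (hg _)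

theorem SN.antisymm {f : S} (hf : SN f) (hg : SN (-f)) : f = 0 := by
  ext n
  have h1 := hf n
  have h2 := hg n
  rw [HahnSeries.coeff_neg] at h2
  rw [HahnSeries.coeff_zero]
  omega

/-! ### From the quantum torus to the completed quantum torus -/

/-- the underlying function of `emb` -/
def embf (x : QTorus) : CT :=
  ⟨fun m => iota (x m), by
    obtain ⟨N, hN⟩ : ∃ N : ℤ, ∀ m ∈ supp x, N ≤ m.1 ∧ N ≤ m.2 := by
      induction supp x using Finset.induction_on with
      | empty => exact ⟨0, by simp⟩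
      | insert a s _ ih =>
        obtain ⟨N, hN⟩ := ih
        refine ⟨min N (min a.1 a.2), fun m hm => ?_⟩
        rcases Finset.mem_insert.mp hm with rfl | h
        · omega
        · have := hN m h; omega
    refine ⟨N, fun m hm => hN m (mem_supp.mpr fun h => hm ?_)⟩
    show iota (x m) = 0
    rw [h, map_zero]⟩

theorem embf_apply (x : QTorus) (m : ℤ × ℤ) : embf x m = iota (x m) := rfl

/-- the embedding of the quantum torus into the completed quantum torus -/
def emb : QTorus →+* CT where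
  toFun := embf
  map_one' := by
    refine CT.ext fun m => ?_
    rw [embf_apply, one_def, mon_apply, CT.one_apply]
    by_cases h : m = 0
    · rw [if_pos h, if_pos h.symm, map_one]
    · rw [if_neg h, if_neg (Ne.symm h), map_zero]
  map_zero' := by
    refine CT.ext fun m => ?_
    rw [embf_apply, QTorus.zero_apply, map_zero, CT.zero_apply]
  map_add' x y := by
    refine CT.ext fun m => ?_
    rw [embf_apply, QTorus.add_apply, map_add, CT.add_apply, embf_apply, embf_apply]
  map_mul' x y := by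
    refine CT.ext fun m => ?_
    rw [embf_apply, QTorus.mul_apply, map_sum, CT.mul_apply', CT.mulf,
      finsum_eq_sum_of_support_subset (s := supp x)]
    · refine Finset.sum_congr rfl fun i _ => ?_
      rw [map_mul, map_mul, iota_T, embf_apply, embf_apply]
      congr 2
      simp only [Lam, Prod.fst_sub, Prod.snd_sub]; ring
    · intro i hi
      rw [Function.mem_support] at hi
      rw [mem_coe, mem_supp]
      intro h
      apply hi
      rw [embf_apply, h, map_zero]; ring

theorem emb_apply (x : QTorus) (m : ℤ × ℤ) : emb x m = iota (x m) := rfl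

theorem emb_injective : Function.Injective emb := by
  intro x y h
  refine QTorus.ext fun m => iota_injective ?_
  rw [← emb_apply, ← emb_apply, h]

/-! ### Series supported on the lattice cone -/

/-- `x` is supported on `{kk κ - a}` -/
def Lat (b c : ℕ) (a : ℤ × ℤ) (x : CT) : Prop :=
  ∀ m, x m ≠ 0 → ∃ κ : ℕ × ℕ, m = kk b c κ - a

/-- The element `∑ φ(κ) X^{kk κ}` of the completed quantum torus. -/
def ser (b c : ℕ) (φ : ℕ × ℕ → S) : CT :=
  ⟨fun m => if kk b c ((m.1 / b).toNat, (m.2 / c).toNat) = m then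
      φ ((m.1 / b).toNat, (m.2 / c).toNat) else 0, 0, fun m h => by
    have h1 : kk b c ((m.1 / b).toNat, (m.2 / c).toNat) = m := by
      by_contra h'; exact h (if_neg h')
    rw [← h1]
    constructor
    · rw [kk_fst]; positivity
    · rw [kk_snd]; positivity⟩

theorem ser_kk {b c : ℕ} (hb : 0 < b) (hc : 0 < c) (φ : ℕ × ℕ → S) (κ : ℕ × ℕ) :
    ser b c φ (kk b c κ) = φ κ := by
  have h1 : ((kk (b : ℤ) c κ).1 / b).toNat = κ.1 := by
    rw [kk_fst, Int.mul_ediv_cancel_left _ (by omega)]; simp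
  have h2 : ((kk (b : ℤ) c κ).2 / c).toNat = κ.2 := by
    rw [kk_snd, Int.mul_ediv_cancel_left _ (by omega)]; simp
  show (if _ then _ else _) = _
  rw [h1, h2, if_pos rfl]

theorem ser_lat {b c : ℕ} (φ : ℕ × ℕ → S) : Lat b c 0 (ser b c φ) := by
  intro m hm
  refine ⟨((m.1 / b).toNat, (m.2 / c).toNat), ?_⟩
  rw [sub_zero]
  by_contra h
  exact hm (if_neg (Ne.symm h))

/-- The series `∑ⱼ mⱼ X^{j kk κ₀}`. -/
def dir (b c : ℕ) (κ₀ : ℕ × ℕ) (m : PowerSeries S) : CT := ser b c (dirf κ₀ m)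

/-! ### Wall crossings -/

/-- the crossing series `m(v^{-λ} Z) / m(v^λ Z)` -/
def crs (m : PowerSeries S) (lam : ℤ) : PowerSeries S :=
  PowerSeries.rescale (w (-lam)) m * PowerSeries.invOfUnit (PowerSeries.rescale (w lam) m) 1

/-- the crossing operator in direction `k`, on functions with support bounded below by `N`:
`l ↦ ∑ⱼ Fⱼ y(l - j k)` -/
def xs (N : ℤ) (F : PowerSeries S) (k : ℤ × ℤ) (y : ℤ × ℤ → S) (l : ℤ × ℤ) : S :=
  ∑ j ∈ Finset.range (l.1 + l.2 - 2 * N + 1).toNat, PowerSeries.coeff j F * y (l - j • k)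

/-! ### Charts -/

/-- The charts: `one` is the initial chart, `lo κ` and `hi κ` are the charts just below and just
above the wall of slope `κ`. `lo (0,1)` is the chart of the cluster `{X₀, X₁}` and `hi (1,0)` that
of `{X₂, X₃}`. -/
inductive Chart : Type
  | one : Chart
  | lo (κ : ℕ × ℕ) : Chart
  | hi (κ : ℕ × ℕ) : Chart

/-- valid charts -/
def Chart.Valid : Chart → Prop
  | .one => True
  | .lo κ => Nat.Coprime κ.1 κ.2
  | .hi κ => Nat.Coprime κ.1 κ.2

open Classical in
/-- a total version of `IsUnit.unit` -/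
def unitOf (x : CT) : CTˣ := if h : IsUnit x then h.unit else 1

theorem unitOf_val {x : CT} (h : IsUnit x) : (unitOf x : CT) = x := by
  rw [unitOf, dif_pos h]; rfl

variable {b c : ℕ}

/-- crossing series of the wall `κ` -/
def WallData.F (D : WallData b c) (κ : ℕ × ℕ) (lam : ℤ) : PowerSeries S := crs (D.M κ) lam

/-- the conjugating elements of the charts -/
def WallData.g (D : WallData b c) : Chart → CTˣ
  | .one => 1
  | .lo κ => (unitOf (ser b c (D.lo κ)))⁻¹ * unitOf (dir b c (1, 0) (D.M (1, 0)))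
  | .hi κ => (unitOf (ser b c (D.hi κ)))⁻¹ * unitOf (dir b c (1, 0) (D.M (1, 0)))

/-- The expansion of `x` in the chart `C`. -/
def WallData.T (D : WallData b c) (C : Chart) (x : CT) : CT :=
  (D.g C : CT) * x * ((D.g C)⁻¹ : CTˣ)

/-- the slope of `-l` (as a coprime pair), for `l₁, l₂ < 0` -/
def slp (b c : ℕ) (l : ℤ × ℤ) : ℕ × ℕ :=
  (c * l.1.natAbs / Nat.gcd (c * l.1.natAbs) (b * l.2.natAbs),
    b * l.2.natAbs / Nat.gcd (c * l.1.natAbs) (b * l.2.natAbs))

/-- the chart of `l` -/
def ch (b c : ℕ) (l : ℤ × ℤ) : Chart :=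
  if 0 ≤ l.1 ∧ 0 ≤ l.2 then Chart.one
  else if 0 ≤ l.1 then Chart.lo (0, 1)
  else if 0 ≤ l.2 then Chart.hi (1, 0)
  else Chart.lo (slp b c l)

/-- A family of functions `τ C`, one for each chart, related by wall crossings. -/
structure ChartSys (D : WallData b c) (N : ℤ) (τ : Chart → ℤ × ℤ → S) : Prop where
  bd : ∀ C : Chart, C.Valid → Bd N (τ C)
  up : ∀ κ : ℕ × ℕ, Nat.Coprime κ.1 κ.2 → ∀ l,
    τ (.hi κ) l = xs N (D.F κ (-Lam l (kk b c κ))) (kk b c κ) (τ (.lo κ)) l
  down : ∀ κ : ℕ × ℕ, Nat.Coprime κ.1 κ.2 → ∀ l,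
    τ (.lo κ) l = xs N (D.F κ (Lam l (kk b c κ))) (kk b c κ) (τ (.hi κ)) l
  x_in : ∀ l, τ (.lo (0, 1)) l =
    xs N (D.F (1, 0) (Lam l (kk b c (1, 0)))) (kk b c (1, 0)) (τ .one) l
  x_out : ∀ l, τ .one l =
    xs N (D.F (1, 0) (-Lam l (kk b c (1, 0)))) (kk b c (1, 0)) (τ (.lo (0, 1))) l
  y_in : ∀ l, τ (.hi (1, 0)) l =
    xs N (D.F (0, 1) (-Lam l (kk b c (0, 1)))) (kk b c (0, 1)) (τ .one) l
  y_out : ∀ l, τ .one l =
    xs N (D.F (0, 1) (Lam l (kk b c (0, 1)))) (kk b c (0, 1)) (τ (.hi (1, 0))) l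
  next : ∀ l, ∃ n : ℕ, ∀ κ₁ κ₂ : ℕ × ℕ, Nat.Coprime κ₁.1 κ₁.2 → Nat.Coprime κ₂.1 κ₂.2 →
    Slt κ₁ κ₂ → (∀ κ' ≤ ((n, n) : ℕ × ℕ), ¬ (Slt κ₁ κ' ∧ Slt κ' κ₂)) →
      τ (.hi κ₁) l = τ (.lo κ₂) l

end Pool.Agent.Work.MP_c41774_al.Wall
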