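import Pool.Agent.Work.MP_c41774_al.Bd.B16
import Pool.Agent.Work.MP_c41774_al.Bd.B14

/-!
# Part A: final statements

* `partA : S_partA`, `greedyUniq : S_greedyUniq` are in `Assembly`.
* `answerA`: Q1 and Q2 from wall data.
* `exists_auto`: the shifts of the initial cluster exist (so that clause (2) of the definition of a
  strongly positive basis is not vacuous).
-/

set_option autoImplicit false

noncomputable section

namespace Pool.Agent.Work.MP_c41774_al.Wall

open Finset QTorus LaurentPolynomial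

private theorem afin_shift : S_shift ∧ S_exists := by
  have h_serMul : S_serMul := pr_serMul
  have h_latMul : S_latMul := pr_latMul
  have h_latUnit : S_latUnit := pr_latUnit h_serMul
  have h_dir : S_dir := pr_dir h_serMul
  have h_cross : S_cross := pr_cross h_dir
  have h_crs : S_crs := pr_crs
  have h_Fpos : S_Fpos := pr_Fpos h_crs
  have h_Fxy : S_Fxy := pr_Fxy h_crs
  have h_trunc : S_trunc := pr_trunc
  have h_g : S_g := pr_g h_latMul h_latUnit h_dir
  have h_chartSys : S_chartSys := pr_chartSys h_serMul h_latUnit h_dir h_cross h_trunc h_g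
  have h_latT : S_latT := pr_latT h_latMul h_g
  have h_tUp : S_tUp := pr_tUp
  have h_tDown : S_tDown := pr_tDown
  have h_elem : S_elem := pr_elem
  have h_prop : S_prop := pr_prop h_Fpos h_elem h_tUp h_tDown h_crs
  have h_vanLo : S_vanLo := pr_vanLo h_elem h_crs h_tUp h_tDown
  have h_vanHi : S_vanHi := pr_vanHi h_elem h_tUp h_tDown h_crs
  have h_vanHi0 : S_vanHi0 := pr_vanHi0 h_crs h_elem h_tUp
  have h_integ : S_integ := pr_integ h_Fxy h_chartSys h_latT h_tUp h_tDown h_elem h_crs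
  have h_intT : S_intT := pr_intT h_chartSys h_integ h_elem h_tUp
  have h_coAlg : S_coAlg := pr_coAlg h_intT h_latT
  have h_coOne : S_coOne := pr_coOne
  have h_coBd : S_coBd := pr_coBd h_intT h_chartSys
  have h_rows : S_rows := pr_rows h_chartSys h_Fxy h_intT h_coOne
  have h_H : S_H := pr_H h_chartSys h_Fxy h_intT
  have h_gen : S_gen := pr_gen
  have h_fin : S_fin := pr_fin h_gen h_coAlg h_rows h_coBd
  have h_finBeta : S_finBeta := pr_finBeta h_fin h_coOne h_coBd
  have h_stdMem : S_stdMem := pr_stdMem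
  have h_stdCo : S_stdCo := pr_stdCo h_rows h_H h_coAlg h_coOne
  have h_isGreedy : S_isGreedy := pr_isGreedy
  have h_stdGreedy : S_stdGreedy := pr_stdGreedy h_isGreedy
  have h_mstd : S_mstd := pr_mstd h_stdMem
  have h_exists : S_exists := pr_exists h_coAlg h_finBeta h_stdMem h_stdCo h_mstd
  have h_goodPos : S_goodPos := pr_goodPos h_prop h_chartSys h_intT
  have h_uniqBeta : S_uniqBeta := pr_uniqBeta h_goodPos h_coAlg h_coOne
  have h_span : S_span := pr_span h_uniqBeta h_finBeta h_coAlg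
  have h_li : S_li := pr_li
  have h_greedyOfBeta : S_greedyOfBeta := pr_greedyOfBeta h_vanLo h_vanHi h_chartSys h_intT h_H h_coOne h_isGreedy
  have h_greedyUniq : S_greedyUniq := pr_greedyUniq
  have h_mulPos : S_mulPos := pr_mulPos h_span h_goodPos h_coAlg
  have h_goodGreedy : S_goodGreedy := pr_goodGreedy h_greedyOfBeta h_stdMem h_stdCo h_stdGreedy h_uniqBeta
  have h_sup : S_sup := pr_sup h_coAlg h_rows h_goodPos h_mulPos h_goodGreedy h_stdCo h_vanLo h_chartSys h_intT h_elem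
  have h_shVan : S_shVan := pr_shVan h_sup h_rows h_coOne h_goodPos h_vanLo h_vanHi h_vanHi0 h_chartSys h_intT h_stdCo h_goodGreedy
  have h_shGreedy : S_shGreedy := pr_shGreedy h_sup h_shVan h_rows h_coAlg h_goodGreedy h_stdCo h_stdGreedy h_isGreedy
  have h_psi : S_psi := pr_psi h_fin h_coAlg h_rows h_intT
  have h_shift : S_shift := pr_shift h_psi h_shGreedy h_goodGreedy h_greedyUniq
  have h_monomials : S_monomials := pr_monomials h_shift h_exists h_goodGreedy
  have h_shiftTwo : S_shiftTwo := pr_shiftTwo h_shift h_exists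
  have h_shiftOne : S_shiftOne := pr_shiftOne h_shift
  exact ⟨h_shift, h_exists⟩

/-- the shift automorphisms exist -/
theorem exists_auto (b c : ℕ) (hb : 0 < b) (hc : 0 < c) (hD : Nonempty (WallData b c))
    (hD' : Nonempty (WallData c b)) (X : ℤ → QTorus) (hX : IsClusterSeq b c X) :
    (∃ σ : clusterAlgebra X ≃ₐ[R] clusterAlgebra X,
      ∀ (m : ℤ) (x : clusterAlgebra X), (x : QTorus) = X m → (σ x : QTorus) = X (m + 2)) ∧
    (b = c → ∃ σ : clusterAlgebra X ≃ₐ[R] clusterAlgebra X,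
      ∀ (m : ℤ) (x : clusterAlgebra X), (x : QTorus) = X m → (σ x : QTorus) = X (m + 1)) := by
  obtain ⟨h1, h2⟩ := afin_shift
  obtain ⟨D⟩ := hD
  obtain ⟨D'⟩ := hD'
  have key : ∀ (k : ℤ) (θ : clusterAlgebra X →ₐ[R] clusterAlgebra X), Function.Injective θ →
      (∀ (m : ℤ) (x : clusterAlgebra X), (x : QTorus) = X m → (θ x : QTorus) = X (m - k)) →
      ∃ σ : clusterAlgebra X ≃ₐ[R] clusterAlgebra X,
        ∀ (m : ℤ) (x : clusterAlgebra X), (x : QTorus) = X m → (σ x : QTorus) = X (m + k) := by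
    intro k θ hinj hθ
    have hmem : ∀ m, X m ∈ clusterAlgebra X := fun m => Algebra.subset_adjoin ⟨m, rfl⟩
    have hsurj : Function.Surjective θ := by
      rw [← AlgHom.range_eq_top, eq_top_iff]
      have htop : (⊤ : Subalgebra R (clusterAlgebra X)) =
          Algebra.adjoin R ((fun x : clusterAlgebra X => (x : QTorus)) ⁻¹' Set.range X) :=
        (Algebra.adjoin_adjoin_coe_preimage (R := R) (s := Set.range X)).symm
      rw [htop]
      refine Algebra.adjoin_le ?_
      rintro z ⟨m, hm⟩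
      refine ⟨⟨X (m + k), hmem _⟩, Subtype.ext ?_⟩
      have := hθ (m + k) ⟨X (m + k), hmem _⟩ rfl
      rw [add_sub_cancel_right, hm] at this
      exact this
    refine ⟨(AlgEquiv.ofBijective θ ⟨hinj, hsurj⟩).symm, fun m x hx => ?_⟩
    have h3 : (AlgEquiv.ofBijective θ ⟨hinj, hsurj⟩) ⟨X (m + k), hmem _⟩ = x := by
      refine Subtype.ext ?_
      have := hθ (m + k) ⟨X (m + k), hmem _⟩ rfl
      rw [add_sub_cancel_right, ← hx] at this
      exact this
    rw [← h3, AlgEquiv.symm_apply_apply]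
  constructor
  · obtain ⟨X', hX', -⟩ := existsUnique_clusterSeq hc hb
    obtain ⟨G, hG⟩ := h2 b c hb hc D X hX
    obtain ⟨G', hG'⟩ := h2 c b hc hb D' X' hX'
    obtain ⟨ψ₁, i1, g1, -⟩ := h1 b c hb hc D D' X X' hX hX' G G' hG hG'
    obtain ⟨ψ₂, i2, g2, -⟩ := h1 c b hc hb D' D X' X hX' hX G' G hG' hG
    refine key 2 (ψ₂.comp ψ₁) (fun x y h => i1 (i2 h)) fun m x hx => ?_
    have e1 := g1 m x hx
    have e2 := g2 (m - 1) (ψ₁ x) e1
    rw [show m - 1 - 1 = m - 2 by ring] at e2
    exact e2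
  · rintro rfl
    obtain ⟨G, hG⟩ := h2 b b hb hc D X hX
    obtain ⟨ψ, i1, g1, -⟩ := h1 b b hb hc D D X X hX hX G G hG hG
    exact key 1 ψ i1 g1

/-- Q1 and Q2 from wall data. -/
theorem answerA (hB : S_wallData) (b c : ℕ) (hb : 0 < b) (hc : 0 < c) (hbc : b ∣ c ∨ c ∣ b) :
    (∃! X : ℤ → QTorus, IsClusterSeq b c X) ∧ ∀ X : ℤ → QTorus, IsClusterSeq b c X →
      (∃ σ : clusterAlgebra X ≃ₐ[R] clusterAlgebra X,
        ∀ (m : ℤ) (x : clusterAlgebra X), (x : QTorus) = X m → (σ x : QTorus) = X (m + 2)) ∧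
      (b = c → ∃ σ : clusterAlgebra X ≃ₐ[R] clusterAlgebra X,
        ∀ (m : ℤ) (x : clusterAlgebra X), (x : QTorus) = X m → (σ x : QTorus) = X (m + 1)) ∧
      ∃ G : ℤ × ℤ → QTorus, (∀ a x, IsGreedy b c a x ↔ x = G a) ∧ IsLowerBasis b c X G ∧
        ∀ B, IsLowerBasis b c X B → B = G := by
  refine ⟨existsUnique_clusterSeq hb hc, fun X hX => ?_⟩
  obtain ⟨h3, h4⟩ := exists_auto b c hb hc (hB b c hb hc hbc) (hB c b hc hb hbc.symm) X hX
  refine ⟨h3, h4, ?_⟩
  obtain ⟨G, h5, h6, h7, h8⟩ := answer partA hB greedyUniq b c hb hc hbc X hX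
  exact ⟨G, fun a x => ⟨h6 a x, fun h => h ▸ h5 a⟩, h7, h8⟩

end Pool.Agent.Work.MP_c41774_al.Wall
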