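import Pool.Agent.Work.MP_c41774_al.Wall.Defs

/-!
# The completed quantum torus over `ℤ((v))`
-/

noncomputable section

namespace Pool.Agent.Work.MP_c41774_al.Wall

open Finset QTorus

/-! ### The coefficient ring -/

theorem w_zero : w 0 = 1 := rfl

theorem w_add (m n : ℤ) : w (m + n) = w m * w n := by
  rw [w, w, w, HahnSeries.single_mul_single, mul_one]

theorem w_mul_neg (m : ℤ) : w m * w (-m) = 1 := by
  rw [← w_add, add_neg_cancel, w_zero]

theorem w_pow (m : ℤ) (k : ℕ) : w m ^ k = w (k * m) := by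
  induction k with
  | zero => simp [w_zero]
  | succ k ih => rw [pow_succ, ih, ← w_add]; congr 1; push_cast; ring

/-- support of `f` bounded below by `N` in both coordinates -/
def Bd (N : ℤ) (f : ℤ × ℤ → S) : Prop := ∀ m, f m ≠ 0 → N ≤ m.1 ∧ N ≤ m.2

theorem Bd.mono {N N' : ℤ} {f : ℤ × ℤ → S} (h : Bd N f) (hN : N' ≤ N) : Bd N' f := fun m hm =>
  ⟨hN.trans (h m hm).1, hN.trans (h m hm).2⟩

theorem Bd.eq_zero {N : ℤ} {f : ℤ × ℤ → S} (h : Bd N f) {m : ℤ × ℤ}
    (hm : m.1 < N ∨ m.2 < N) : f m = 0 := by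
  by_contra hne
  have := h m hne
  omega

/-- The completed quantum torus: series `∑ f_m X^m` with support bounded below in both
coordinates. -/
structure CT : Type where
  f : ℤ × ℤ → S
  bd : ∃ N : ℤ, Bd N f

namespace CT

instance : CoeFun CT (fun _ => ℤ × ℤ → S) := ⟨CT.f⟩

@[ext] theorem ext {x y : CT} (h : ∀ m, x m = y m) : x = y := by
  cases x; cases y; congr 1; funext m; exact h m

/-- the product of two functions -/
def mulf (x y : ℤ × ℤ → S) (m : ℤ × ℤ) : S := ∑ᶠ i, w (Lam i m) * (x i * y (m - i))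

theorem mulf_eq {x y : ℤ × ℤ → S} {M N : ℤ} (hx : Bd M x) (hy : Bd N y) (m : ℤ × ℤ) :
    mulf x y m = ∑ i ∈ Icc (M, M) (m.1 - N, m.2 - N), w (Lam i m) * (x i * y (m - i)) := by
  refine finsum_eq_sum_of_support_subset _ fun i hi => ?_
  rw [Function.mem_support] at hi
  have h1 : x i ≠ 0 := left_ne_zero_of_mul (right_ne_zero_of_mul hi)
  have h2 : y (m - i) ≠ 0 := right_ne_zero_of_mul (right_ne_zero_of_mul hi)
  have h3 := hx _ h1
  have h4 := hy _ h2
  simp only [Prod.fst_sub, Prod.snd_sub] at h4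
  rw [mem_coe, mem_Icc, Prod.le_def, Prod.le_def]
  exact ⟨⟨h3.1, h3.2⟩, ⟨by simp only; omega, by simp only; omega⟩⟩

theorem bd_mulf {x y : ℤ × ℤ → S} {M N : ℤ} (hx : Bd M x) (hy : Bd N y) :
    Bd (M + N) (mulf x y) := by
  intro m hm
  rw [mulf_eq hx hy] at hm
  obtain ⟨i, hi, -⟩ := Finset.exists_ne_zero_of_sum_ne_zero hm
  rw [mem_Icc, Prod.le_def, Prod.le_def] at hi
  simp only at hi
  omega

instance : Zero CT := ⟨⟨fun _ => 0, 0, fun _ h => absurd rfl h⟩⟩
instance : One CT := ⟨⟨fun m => if m = 0 then 1 else 0, 0, fun m h => by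
  have : m = 0 := by by_contra h'; exact h (if_neg h')
  rw [this]; simp⟩⟩
instance : Add CT := ⟨fun x y => ⟨fun m => x m + y m, by
  obtain ⟨M, hM⟩ := x.bd
  obtain ⟨N, hN⟩ := y.bd
  refine ⟨min M N, fun m hm => ?_⟩
  by_cases h : x m = 0
  · have h2 : y m ≠ 0 := by intro h'; apply hm; simp only; rw [h, h', add_zero]
    have := hN m h2
    omega
  · have := hM m h
    omega⟩⟩
instance : Neg CT := ⟨fun x => ⟨fun m => -x m, by
  obtain ⟨M, hM⟩ := x.bd
  exact ⟨M, fun m hm => hM m (fun h => hm (by simp only; rw [h, neg_zero]))⟩⟩⟩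
instance : Mul CT := ⟨fun x y => ⟨mulf x y, by
  obtain ⟨M, hM⟩ := x.bd
  obtain ⟨N, hN⟩ := y.bd
  exact ⟨M + N, bd_mulf hM hN⟩⟩⟩

@[simp] theorem zero_apply (m : ℤ × ℤ) : (0 : CT) m = 0 := rfl
theorem one_apply (m : ℤ × ℤ) : (1 : CT) m = if m = 0 then 1 else 0 := rfl
@[simp] theorem add_apply (x y : CT) (m : ℤ × ℤ) : (x + y) m = x m + y m := rfl
@[simp] theorem neg_apply (x : CT) (m : ℤ × ℤ) : (-x) m = -x m := rfl
theorem mul_apply' (x y : CT) (m : ℤ × ℤ) : (x * y) m = mulf x y m := rfl

/-- The product formula. -/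
theorem mul_apply {x y : CT} {M N : ℤ} (hx : Bd M x) (hy : Bd N y) (m : ℤ × ℤ) :
    (x * y) m = ∑ i ∈ Icc (M, M) (m.1 - N, m.2 - N), w (Lam i m) * (x i * y (m - i)) :=
  mulf_eq hx hy m

theorem bd_mul {x y : CT} {M N : ℤ} (hx : Bd M x) (hy : Bd N y) : Bd (M + N) (x * y).f :=
  bd_mulf hx hy

theorem bd_add {x y : CT} {N : ℤ} (hx : Bd N x) (hy : Bd N y) : Bd N (x + y).f := by
  intro m hm
  by_cases h : x m = 0
  · refine hy m fun h' => hm ?_
    rw [add_apply, h, h', add_zero]
  · exact hx m h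

theorem exists_bd (x : CT) : ∃ N : ℤ, Bd N x := x.bd

theorem exists_bd2 (x y : CT) : ∃ N : ℤ, Bd N x ∧ Bd N y := by
  obtain ⟨M, hM⟩ := x.bd
  obtain ⟨N, hN⟩ := y.bd
  exact ⟨min M N, hM.mono (min_le_left _ _), hN.mono (min_le_right _ _)⟩

theorem exists_bd3 (x y z : CT) : ∃ N : ℤ, Bd N x ∧ Bd N y ∧ Bd N z := by
  obtain ⟨M, hM, hM'⟩ := exists_bd2 x y
  obtain ⟨N, hN⟩ := z.bd
  exact ⟨min M N, hM.mono (min_le_left _ _), hM'.mono (min_le_left _ _),
    hN.mono (min_le_right _ _)⟩

protected theorem mul_assoc' (x y z : CT) : x * y * z = x * (y * z) := by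
  obtain ⟨N, hx, hy, hz⟩ := exists_bd3 x y z
  refine CT.ext fun m => ?_
  rw [mul_apply (bd_mul hx hy) hz, mul_apply hx (bd_mul hy hz)]
  have e1 : ∀ k ∈ Icc (N + N, N + N) (m.1 - N, m.2 - N),
      w (Lam k m) * ((x * y) k * z (m - k)) =
        ∑ i ∈ Icc (N, N) (m.1 - (N + N), m.2 - (N + N)),
          w (Lam k m) * (w (Lam i k) * (x i * y (k - i)) * z (m - k)) := by
    intro k hk
    rw [mem_Icc, Prod.le_def, Prod.le_def] at hk
    simp only at hk
    rw [mul_apply hx hy, Finset.sum_mul, Finset.mul_sum]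
    refine Finset.sum_subset (Icc_subset_Icc le_rfl ?_) fun i _ hi2 => ?_
    · rw [Prod.le_def]; simp only; omega
    · have : y (k - i) = 0 ∨ x i = 0 := by
        by_contra hcon
        push Not at hcon
        have h1 := hy _ hcon.1
        have h2 := hx _ hcon.2
        apply hi2
        rw [mem_Icc, Prod.le_def, Prod.le_def]
        simp only [Prod.fst_sub, Prod.snd_sub] at h1 ⊢
        omega
      rcases this with h | h <;> rw [h] <;> simp
  have e2 : ∀ i ∈ Icc (N, N) (m.1 - (N + N), m.2 - (N + N)),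
      w (Lam i m) * (x i * (y * z) (m - i)) =
        ∑ k ∈ Icc (N + N, N + N) (m.1 - N, m.2 - N),
          w (Lam k m) * (w (Lam i k) * (x i * y (k - i)) * z (m - k)) := by
    intro i hi
    rw [mem_Icc, Prod.le_def, Prod.le_def] at hi
    simp only at hi
    rw [mul_apply hy hz, Finset.mul_sum, Finset.mul_sum]
    refine Finset.sum_bij_ne_zero (fun j _ _ => j + i) ?_ ?_ ?_ ?_
    · intro j hj _
      rw [mem_Icc, Prod.le_def, Prod.le_def] at hj ⊢
      simp only [Prod.fst_sub, Prod.snd_sub, Prod.fst_add, Prod.snd_add] at hj ⊢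
      omega
    · intro j _ _ j' _ _ h
      exact add_right_cancel h
    · intro k hk hne
      have h1 : y (k - i) ≠ 0 := by
        intro h; apply hne; rw [h]; simp
      have h2 := hy _ h1
      refine ⟨k - i, ?_, ?_, by simp⟩
      · rw [mem_Icc, Prod.le_def, Prod.le_def] at hk ⊢
        simp only [Prod.fst_sub, Prod.snd_sub] at hk h2 ⊢
        omega
      · have e3 : m - i - (k - i) = m - k := by abel
        have e4 : Lam i m + Lam (k - i) (m - i) = Lam k m + Lam i k := by
          simp only [Lam, Prod.fst_sub, Prod.snd_sub]; ring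
        rw [e3]
        intro h
        apply hne
        have : w (Lam k m) * (w (Lam i k) * (x i * y (k - i)) * z (m - k)) =
            w (Lam i m) * (x i * (w (Lam (k - i) (m - i)) * (y (k - i) * z (m - k)))) := by
          calc _ = (w (Lam k m) * w (Lam i k)) * (x i * y (k - i) * z (m - k)) := by ring
            _ = (w (Lam i m) * w (Lam (k - i) (m - i))) * (x i * y (k - i) * z (m - k)) := by
              rw [← w_add, ← w_add, e4]
            _ = _ := by ring
        rw [this]
        exact h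
    · intro j _ _
      have e3 : m - i - j = m - (j + i) := by abel
      have e5 : j + i - i = j := by abel
      have e4 : Lam i m + Lam j (m - i) = Lam (j + i) m + Lam i (j + i) := by
        simp only [Lam, Prod.fst_sub, Prod.snd_sub, Prod.fst_add, Prod.snd_add]; ring
      rw [e3, e5]
      calc _ = (w (Lam i m) * w (Lam j (m - i))) * (x i * y j * z (m - (j + i))) := by ring
        _ = (w (Lam (j + i) m) * w (Lam i (j + i))) * (x i * y j * z (m - (j + i))) := by
          rw [← w_add, ← w_add, e4]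
        _ = _ := by ring
  rw [Finset.sum_congr rfl e1, Finset.sum_congr rfl e2]
  exact Finset.sum_comm

protected theorem add_mul' (x y z : CT) : (x + y) * z = x * z + y * z := by
  obtain ⟨N, hx, hy, hz⟩ := exists_bd3 x y z
  refine CT.ext fun m => ?_
  rw [mul_apply (bd_add hx hy) hz, add_apply, mul_apply hx hz, mul_apply hy hz,
    ← Finset.sum_add_distrib]
  refine Finset.sum_congr rfl fun i _ => ?_
  rw [add_apply]; ring

protected theorem mul_add' (x y z : CT) : x * (y + z) = x * y + x * z := by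
  obtain ⟨N, hx, hy, hz⟩ := exists_bd3 x y z
  refine CT.ext fun m => ?_
  rw [mul_apply hx (bd_add hy hz), add_apply, mul_apply hx hy, mul_apply hx hz,
    ← Finset.sum_add_distrib]
  refine Finset.sum_congr rfl fun i _ => ?_
  rw [add_apply]; ring

/-- monomials -/
def mon (l : ℤ × ℤ) (s : S) : CT :=
  ⟨fun m => if m = l then s else 0, min l.1 l.2, fun m h => by
    have : m = l := by by_contra h'; exact h (if_neg h')
    rw [this]; omega⟩

theorem mon_apply (l : ℤ × ℤ) (s : S) (m : ℤ × ℤ) : mon l s m = if m = l then s else 0 := rfl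

theorem mon_mul_apply (l : ℤ × ℤ) (s : S) (y : CT) (m : ℤ × ℤ) :
    (mon l s * y) m = w (Lam l m) * (s * y (m - l)) := by
  rw [mul_apply', mulf, finsum_eq_single _ l, mon_apply, if_pos rfl]
  intro i hi
  rw [mon_apply, if_neg hi]; ring

theorem mul_mon_apply (l : ℤ × ℤ) (s : S) (y : CT) (m : ℤ × ℤ) :
    (y * mon l s) m = w (Lam m l) * (y (m - l) * s) := by
  rw [mul_apply', mulf, finsum_eq_single _ (m - l), mon_apply, if_pos (by abel)]
  · congr 2
    simp only [Lam, Prod.fst_sub, Prod.snd_sub]; ring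
  · intro i hi
    rw [mon_apply, if_neg, mul_zero, mul_zero]
    intro h
    apply hi
    rw [← h]; abel

theorem one_eq_mon : (1 : CT) = mon 0 1 := rfl

instance : Ring CT where
  add_assoc x y z := by refine CT.ext fun m => ?_; simp only [add_apply]; ring
  zero_add x := by refine CT.ext fun m => ?_; simp
  add_zero x := by refine CT.ext fun m => ?_; simp
  nsmul := nsmulRec
  zsmul := zsmulRec
  neg_add_cancel x := by refine CT.ext fun m => ?_; simp
  add_comm x y := by refine CT.ext fun m => ?_; simp only [add_apply]; ring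
  left_distrib := CT.mul_add'
  right_distrib := CT.add_mul'
  zero_mul x := by
    refine CT.ext fun m => ?_
    rw [mul_apply', mulf]
    simp
  mul_zero x := by
    refine CT.ext fun m => ?_
    rw [mul_apply', mulf]
    simp
  mul_assoc := CT.mul_assoc'
  one_mul x := by
    refine CT.ext fun m => ?_
    rw [one_eq_mon, mon_mul_apply]
    simp [Lam, w_zero]
  mul_one x := by
    refine CT.ext fun m => ?_
    rw [one_eq_mon, mul_mon_apply]
    simp [Lam, w_zero]

@[simp] theorem sub_apply (x y : CT) (m : ℤ × ℤ) : (x - y) m = x m - y m := by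
  rw [sub_eq_add_neg, add_apply, neg_apply, sub_eq_add_neg]

theorem sum_apply {ι : Type*} (s : Finset ι) (x : ι → CT) (m : ℤ × ℤ) :
    (∑ i ∈ s, x i) m = ∑ i ∈ s, x i m := by
  classical
  induction s using Finset.induction_on with
  | empty => simp
  | insert a s ha ih => rw [Finset.sum_insert ha, Finset.sum_insert ha, add_apply, ih]

theorem mon_mul_mon (l l' : ℤ × ℤ) (s s' : S) :
    mon l s * mon l' s' = mon (l + l') (w (Lam l l') * (s * s')) := by
  refine CT.ext fun m => ?_
  rw [mon_mul_apply, mon_apply, mon_apply]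
  by_cases h : m = l + l'
  · rw [if_pos h, if_pos (by rw [h]; abel), h]
    congr 2
    simp only [Lam, Prod.fst_add, Prod.snd_add]; ring
  · rw [if_neg h, if_neg (fun h' => h (by rw [← h']; abel))]; simp

end CT

end Pool.Agent.Work.MP_c41774_al.Wall
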