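import Pool.Agent.Work.MP_c41774_al.Defs

/-!
# Wall data: the interface between the labelled algebra (Parts 1, 2) and the charts (Part 3)

`S = ℤ((v))`. A function `f : ℕ × ℕ → S` stands for the series `∑ f(p,q) X^{(bp,cq)}` in the
completed quantum torus. The slope of `(p,q)` is `p/q`, and `Slt` compares slopes.
-/

noncomputable section

namespace Pool.Agent.Work.MP_c41774_al.Wall

open Finset

/-- The ring `ℤ((v))` of Laurent series. -/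
abbrev S : Type := LaurentSeries ℤ

/-- `w n = v^n` -/
def w (n : ℤ) : S := HahnSeries.single n (1 : ℤ)

/-- all coefficients of `f` are nonnegative -/
def SN (f : S) : Prop := ∀ n : ℤ, 0 ≤ f.coeff n

/-- The twisted product: `(∑ f_i X^{kk i}) (∑ g_j X^{kk j})`, where `kk (p,q) = (bp,cq)` and
`X^m X^{m'} = v^{m₂ m'₁ - m₁ m'₂} X^{m+m'}`. -/
def tmul (b c : ℕ) (f g : ℕ × ℕ → S) (κ : ℕ × ℕ) : S :=
  ∑ i ∈ Finset.Iic κ,
    w ((b : ℤ) * c * ((i.2 : ℤ) * κ.1 - i.1 * κ.2)) * (f i * g (κ - i))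

/-- The series `∑ⱼ mⱼ X^{j kk κ₀}` in the direction `κ₀`. -/
def dirf (κ₀ : ℕ × ℕ) (m : PowerSeries S) (κ : ℕ × ℕ) : S :=
  ∑ j ∈ Finset.range (κ.1 + κ.2 + 1),
    if κ = (j * κ₀.1, j * κ₀.2) then PowerSeries.coeff j m else 0

/-- the slope of `κ` is smaller than the slope of `κ'` -/
def Slt (κ κ' : ℕ × ℕ) : Prop := κ.1 * κ'.2 < κ'.1 * κ.2

/-- The output of Parts 1 and 2. For coprime `κ₀ = (p₀,q₀)` (including `(1,0)` and `(0,1)`),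
`M κ₀` is the wall series, `lo κ₀` the ordered product of all wall series of slope `< κ₀`, in
increasing order, and `hi κ₀` that of all wall series of slope `≤ κ₀`. -/
structure WallData (b c : ℕ) where
  M : ℕ × ℕ → PowerSeries S
  lo : ℕ × ℕ → ℕ × ℕ → S
  hi : ℕ × ℕ → ℕ × ℕ → S
  /-- the empty product -/
  lo_zero : ∀ κ, lo (0, 1) κ = if κ = 0 then 1 else 0
  /-- the full product is `E(x) E(y)` -/
  hi_inf : ∀ κ, hi (1, 0) κ = tmul b c (dirf (1, 0) (M (1, 0))) (dirf (0, 1) (M (0, 1))) κ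
  cross : ∀ κ₀ : ℕ × ℕ, Nat.Coprime κ₀.1 κ₀.2 → ∀ κ,
    hi κ₀ κ = tmul b c (lo κ₀) (dirf κ₀ (M κ₀)) κ
  next : ∀ κ₁ κ₂ κ : ℕ × ℕ, Nat.Coprime κ₁.1 κ₁.2 → Nat.Coprime κ₂.1 κ₂.2 → Slt κ₁ κ₂ →
    (∀ κ' ≤ κ, ¬ (Slt κ₁ κ' ∧ Slt κ' κ₂)) → hi κ₁ κ = lo κ₂ κ
  const : ∀ κ₀ : ℕ × ℕ, Nat.Coprime κ₀.1 κ₀.2 → PowerSeries.constantCoeff (M κ₀) = 1
  ex : PowerSeries.rescale (w (-(b : ℤ))) (M (1, 0)) =
    (1 + PowerSeries.X) * PowerSeries.rescale (w b) (M (1, 0))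
  ey : PowerSeries.rescale (w (-(c : ℤ))) (M (0, 1)) =
    (1 + PowerSeries.X) * PowerSeries.rescale (w c) (M (0, 1))
  pos : ∀ κ₀ : ℕ × ℕ, Nat.Coprime κ₀.1 κ₀.2 → ∃ f : PowerSeries S,
    (∀ n, SN (PowerSeries.coeff n f)) ∧
      PowerSeries.rescale (w (-(Nat.gcd (b * κ₀.1) (c * κ₀.2) : ℤ))) (M κ₀) =
        f * PowerSeries.rescale (w (Nat.gcd (b * κ₀.1) (c * κ₀.2) : ℤ)) (M κ₀)

end Pool.Agent.Work.MP_c41774_al.Wall
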